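import Mathlib
import Pool.Agent.Helper32.AG.Goals

/-!
# PROJECT AG, packet N3 (helper87): numbers for one block
-/

set_option autoImplicit false

namespace Pool.Agent.Helper87.AG

open Pool.Agent.Helper32.AG

/-- the inequality with the rounded numbers. -/
def In (q d h : ℕ) : Prop :=
  q * (q - 1) ≤ 3 ^ ((d * d + h - 1 + (d - 1)) / d + (q - 1 + (h * d - 1)) / (h * d) - 1)

instance (q d h : ℕ) : Decidable (In q d h) := by unfold In; infer_instance

/-- the check for one `p, a, d`. -/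
def chk (p a d : ℕ) : Bool :=
  decide (∀ h < 241, h = 0 ∨ ¬ h ∣ p ^ a - 1 ∨ (∃ a' < a, a' ∣ a ∧ h ∣ p ^ a' - 1) ∨ In (p ^ a) d h)

theorem fin_check : ∀ p ∈ ([2, 3, 5, 7, 11, 13] : List ℕ), ∀ a < 8, ∀ d < 8,
    241 < p ^ a ∨ d < 2 ∨ ¬ d ∣ a ∨ p ∣ d ∨ chk p a d = true := by
  decide +kernel

/-- the growth of the bound, `t ≥ 12`. -/
theorem grow (t : ℕ) (ht : 12 ≤ t) : (t * t + 4) ^ 2 * ((t * t + 4) ^ 2 + 64) ≤ 4096 * 3 ^ (t - 1) := by
  obtain ⟨n, rfl⟩ : ∃ n, t = n + 12 := ⟨t - 12, by omega⟩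
  have key : ∀ n : ℕ, ((n + 12) * (n + 12) + 4) ^ 2 * (((n + 12) * (n + 12) + 4) ^ 2 + 64) ≤
      4096 * 3 ^ (n + 11) := by
    intro n
    induction n with
    | zero => norm_num
    | succ n ih =>
      have e : 4096 * 3 ^ (n + 1 + 11) = 3 * (4096 * 3 ^ (n + 11)) := by ring
      rw [e]
      refine le_trans ?_ (Nat.mul_le_mul_left 3 ih)
      have h1 : (n + 1 + 12) * (n + 1 + 12) + 4 = (n + 12) * (n + 12) + 4 + (2 * n + 25) := by ring
      rw [h1]
      have h2 : 5 * ((n + 12) * (n + 12) + 4 + (2 * n + 25)) ≤ 6 * ((n + 12) * (n + 12) + 4) := by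
        nlinarith
      set X := (n + 12) * (n + 12) + 4 with hX
      set Y := X + (2 * n + 25) with hY
      have h3 : 25 * Y ^ 2 ≤ 36 * X ^ 2 := by
        have := Nat.mul_le_mul h2 h2
        nlinarith
      have h4 : 625 * (Y ^ 2 * (Y ^ 2 + 64)) ≤ 3 * 625 * (X ^ 2 * (X ^ 2 + 64)) := by
        have h5 : 25 * (Y ^ 2 + 64) ≤ 36 * (X ^ 2 + 64) := by nlinarith
        have := Nat.mul_le_mul h3 h5
        nlinarith
      nlinarith
  have := key n
  have e : n + 12 - 1 = n + 11 := by omega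
  rw [e]
  exact this

theorem d1_grow (m : ℕ) (hm : 3 ≤ m) : ∀ w : ℕ, 4 * w ≤ (m + 1) ^ 2 → w * (w + 1) ≤ 3 ^ m := by
  have key : ∀ n : ℕ, (n + 4) ^ 2 * ((n + 4) ^ 2 + 4) ≤ 16 * 3 ^ (n + 3) := by
    intro n
    induction n with
    | zero => norm_num
    | succ n ih =>
      rcases Nat.lt_or_ge n 3 with h | h
      · interval_cases n <;> norm_num
      · have e : 16 * 3 ^ (n + 1 + 3) = 3 * (16 * 3 ^ (n + 3)) := by ring
        rw [e]
        refine le_trans ?_ (Nat.mul_le_mul_left 3 ih)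
        have h2 : 4 * (n + 1 + 4) ≤ 5 * (n + 4) := by omega
        set X := n + 4 with hX
        set Y := n + 1 + 4 with hY
        have hX7 : 7 ≤ X := by omega
        have h3 : 16 * Y ^ 2 ≤ 25 * X ^ 2 := by
          have := Nat.mul_le_mul h2 h2
          nlinarith
        have h5 : 16 * (Y ^ 2 + 4) ≤ 25 * (X ^ 2 + 4) := by nlinarith
        have := Nat.mul_le_mul h3 h5
        nlinarith
  intro w hw
  obtain ⟨n, rfl⟩ : ∃ n, m = n + 3 := ⟨m - 3, by omega⟩
  have h1 := key n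
  have h2 : 4 * w * (4 * w + 4) ≤ (n + 4) ^ 2 * ((n + 4) ^ 2 + 4) :=
    Nat.mul_le_mul (by simpa using hw) (by simpa using hw)
  nlinarith

theorem n3 : N3Stmt := by
  intro p a d h kk r hp ha hq hd hh hda hpd hhw hmin hkk hr hw
  obtain ⟨w, hwq⟩ : ∃ w, p ^ a = w + 1 := ⟨p ^ a - 1, by omega⟩
  have hw1 : p ^ a - 1 = w := by omega
  have hw3 : 3 ≤ w := by omega
  have hkd : d ≤ kk := by
    have : d * d ≤ d * kk := by omega
    exact Nat.le_of_mul_le_mul_left this hd
  obtain ⟨u, hu⟩ : ∃ u, kk = d + u := ⟨kk - d, by omega⟩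
  have hhu : h ≤ d * u + 1 := by
    have : d * kk = d * d + d * u := by rw [hu]; ring
    omega
  have hwb : w ≤ (r * d) * (d * u + 1) := by
    rw [hw1] at hw
    calc w ≤ r * (h * d) := hw
      _ = (r * d) * h := by ring
      _ ≤ (r * d) * (d * u + 1) := Nat.mul_le_mul_left _ hhu
  obtain ⟨m, hm⟩ : ∃ m, m = u + r := ⟨_, rfl⟩
  have h4 : 4 * w ≤ (d * m + 1) ^ 2 := by
    have e : d * m + 1 = r * d + (d * u + 1) := by rw [hm]; ring
    rw [e]
    have h5 : 4 * ((r * d) * (d * u + 1)) ≤ (r * d + (d * u + 1)) ^ 2 := by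
      zify
      nlinarith [sq_nonneg ((r : ℤ) * d - (d * u + 1))]
    omega
  have hn : kk + r - 1 = d + m - 1 := by omega
  have hm1 : 1 ≤ m := by omega
  rcases Nat.lt_or_ge 1 d with hd2 | hd2
  swap
  · have hd1 : d = 1 := by omega
    subst hd1
    have hm3 : 3 ≤ m := by
      by_contra hcon
      have : m ≤ 2 := by omega
      have : (1 * m + 1) ^ 2 ≤ 3 ^ 2 := Nat.pow_le_pow_left (by omega) 2
      omega
    have h6 := d1_grow m hm3 w (by simpa using h4)
    rw [hn, hwq]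
    have e : 1 + m - 1 = m := by omega
    rw [e]
    calc (w + 1) * (w + 1 - 1) = w * (w + 1) := by rw [Nat.add_sub_cancel]; ring
      _ ≤ 3 ^ m := h6
  rcases Nat.lt_or_ge (d + m) 12 with ht | ht
  swap
  · have h7 := grow (d + m) ht
    have h8 : 4 * (d * m) ≤ (d + m) * (d + m) := by
      zify
      nlinarith [sq_nonneg ((d : ℤ) - m)]
    have h9 : 64 * w ≤ ((d + m) * (d + m) + 4) ^ 2 := by
      have : (4 * (d * m + 1)) ^ 2 ≤ ((d + m) * (d + m) + 4) ^ 2 :=
        Nat.pow_le_pow_left (by omega) 2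
      have e : (4 * (d * m + 1)) ^ 2 = 16 * (d * m + 1) ^ 2 := by ring
      omega
    have h10 : 64 * w * (64 * w + 64) ≤
        ((d + m) * (d + m) + 4) ^ 2 * (((d + m) * (d + m) + 4) ^ 2 + 64) :=
      Nat.mul_le_mul h9 (by omega)
    rw [hn, hwq]
    have h11 : 64 * w * (64 * w + 64) = 4096 * ((w + 1) * (w + 1 - 1)) := by
      rw [Nat.add_sub_cancel]; ring
    omega
  -- the finite part
  have hdm : d * m ≤ 30 := by
    have : m ≤ 11 - d := by omega
    have hd11 : d ≤ 10 := by omega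
    calc d * m ≤ d * (11 - d) := Nat.mul_le_mul_left _ this
      _ ≤ 30 := by interval_cases d <;> norm_num
  have hw240 : w ≤ 240 := by
    have : (d * m + 1) ^ 2 ≤ 31 ^ 2 := Nat.pow_le_pow_left (by omega) 2
    omega
  have hda' : d ≤ a := Nat.le_of_dvd ha hda
  have ha8 : a < 8 := by
    by_contra hcon
    have h12 : 2 ^ 8 ≤ p ^ a :=
      le_trans (Nat.pow_le_pow_left hp.two_le 8) (Nat.pow_le_pow_right hp.pos (by omega))
    omega
  have hp15 : p ≤ 15 := by
    by_contra hcon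
    have h12 : 16 ^ 2 ≤ p ^ a :=
      le_trans (Nat.pow_le_pow_left (by omega) 2) (Nat.pow_le_pow_right hp.pos (by omega))
    omega
  have hpl : p ∈ ([2, 3, 5, 7, 11, 13] : List ℕ) := by
    have hp2 := hp.two_le
    interval_cases p <;> first | decide | (exfalso; revert hp; decide)
  have hfin := fin_check p hpl a ha8 d (by omega)
  have hIn : In (p ^ a) d h := by
    rcases hfin with h13 | h13 | h13 | h13 | h13
    · omega
    · omega
    · exact absurd hda h13
    · exact absurd h13 hpd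
    · have h14 := of_decide_eq_true h13 h (by
        have := Nat.le_of_dvd (by omega) hhw
        omega)
      rcases h14 with h15 | h15 | ⟨a', ha', h16, h17⟩ | h15
      · omega
      · exact absurd hhw h15
      · exact absurd h17 (hmin a' h16 ha')
      · exact h15
  refine le_trans hIn (Nat.pow_le_pow_right (by norm_num) ?_)
  have hk0 : (d * d + h - 1 + (d - 1)) / d ≤ kk := by
    have : (d * d + h - 1 + (d - 1)) / d < kk + 1 := by
      rw [Nat.div_lt_iff_lt_mul hd]
      have e : (kk + 1) * d = d * kk + d := by ring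
      omega
    omega
  have hr0 : (p ^ a - 1 + (h * d - 1)) / (h * d) ≤ r := by
    have hhd : 0 < h * d := Nat.mul_pos hh hd
    have : (p ^ a - 1 + (h * d - 1)) / (h * d) < r + 1 := by
      rw [Nat.div_lt_iff_lt_mul hhd]
      have e : (r + 1) * (h * d) = r * (h * d) + h * d := by ring
      omega
    omega
  omega

end Pool.Agent.Helper87.AG
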